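import Mathlib

/-!
Number-conserving three-state cellular automata whose neighbourhood has only pair interactions.
-/

namespace Pool.Agent.Q21.NC

open Function Set

variable {G : Type*} [AddCommGroup G] [DecidableEq G]

/-- a number-conserving injective three-state cellular automaton with neighbourhood `N` -/
structure Good (N : Set G) (F : (G → Fin 3) → (G → Fin 3)) : Prop where
  zero_mem : (0 : G) ∈ N
  neg_mem : ∀ u ∈ N, -u ∈ N
  fin : N.Finite
  sp : ∀ u ∈ N, ∀ w' ∈ N, ∀ w ∈ N, ∀ u' ∈ N, u + w' = w + u' → u = w ∨ u = u' ∨ w' = -u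
  two : ∀ u : G, u + u = 0 → u = 0
  loc : ∀ x y v, (∀ u ∈ N, x (v + u) = y (v + u)) → F x v = F y v
  shift : ∀ x h v, F (fun w => x (w + h)) v = F x (v + h)
  nc : ∀ x, (support x).Finite → (support (F x)).Finite ∧
    ∑ᶠ v, ((F x v : Fin 3) : ℕ) = ∑ᶠ v, ((x v : Fin 3) : ℕ)
  inj : Injective F

def sg (a : G) (s : Fin 3) : G → Fin 3 := fun v => if v = a then s else 0
def pr (a : G) (s : Fin 3) (b : G) (t : Fin 3) : G → Fin 3 :=
  fun v => if v = a then s else if v = b then t else 0
def tr (a : G) (s : Fin 3) (b : G) (t : Fin 3) (c : G) (r : Fin 3) : G → Fin 3 :=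
  fun v => if v = a then s else if v = b then t else if v = c then r else 0

/-- the new state as an integer -/
def Z (F : (G → Fin 3) → (G → Fin 3)) (x : G → Fin 3) (v : G) : ℤ := ((F x v : Fin 3) : ℕ)

theorem Z_nonneg (F : (G → Fin 3) → (G → Fin 3)) (x : G → Fin 3) (v : G) : 0 ≤ Z F x v := by
  unfold Z; positivity

theorem Z_le (F : (G → Fin 3) → (G → Fin 3)) (x : G → Fin 3) (v : G) : Z F x v ≤ 2 := by
  unfold Z; have := (F x v).isLt; omega

theorem sg_fin (a : G) (s : Fin 3) : (support (sg a s)).Finite :=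
  (finite_singleton a).subset fun v hv => by
    by_contra h; exact hv (by simp [sg, show v ≠ a from h])

theorem pr_fin (a : G) (s : Fin 3) (b : G) (t : Fin 3) : (support (pr a s b t)).Finite :=
  (toFinite {a, b}).subset fun v hv => by
    by_contra h
    simp only [mem_insert_iff, mem_singleton_iff, not_or] at h
    exact hv (by simp [pr, h.1, h.2])

theorem tr_fin (a : G) (s : Fin 3) (b : G) (t : Fin 3) (c : G) (r : Fin 3) :
    (support (tr a s b t c r)).Finite :=
  (toFinite {a, b, c}).subset fun v hv => by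
    by_contra h
    simp only [mem_insert_iff, mem_singleton_iff, not_or] at h
    exact hv (by simp [tr, h.1, h.2.1, h.2.2])

theorem sum_ite (a : G) (c : ℤ) : ∑ᶠ v : G, (if v = a then c else 0) = c := by
  rw [finsum_eq_single _ a (fun v hv => if_neg hv), if_pos rfl]

theorem fin_ite (a : G) (c : ℤ) : (support fun v : G => if v = a then c else 0).Finite :=
  (finite_singleton a).subset fun v hv => by
    by_contra h; exact hv (by simp [show v ≠ a from h])

theorem sg_sum (a : G) (s : Fin 3) : ∑ᶠ v, (((sg a s v : Fin 3) : ℕ) : ℤ) = (s : ℕ) := by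
  rw [← sum_ite a ((s : ℕ) : ℤ)]
  refine finsum_congr fun v => ?_
  unfold sg; split_ifs <;> simp

theorem pr_sum {a b : G} (hab : a ≠ b) (s t : Fin 3) :
    ∑ᶠ v, (((pr a s b t v : Fin 3) : ℕ) : ℤ) = (s : ℕ) + (t : ℕ) := by
  rw [← sum_ite a ((s : ℕ) : ℤ), ← sum_ite b ((t : ℕ) : ℤ), ← finsum_add_distrib (fin_ite _ _) (fin_ite _ _)]
  refine finsum_congr fun v => ?_
  unfold pr
  rcases eq_or_ne v a with rfl | h1
  · simp [hab]
  · rcases eq_or_ne v b with rfl | h2 <;> simp [*]

theorem tr_sum {a b c : G} (hab : a ≠ b) (hac : a ≠ c) (hbc : b ≠ c) (s t r : Fin 3) :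
    ∑ᶠ v, (((tr a s b t c r v : Fin 3) : ℕ) : ℤ) = (s : ℕ) + (t : ℕ) + (r : ℕ) := by
  rw [← sum_ite a ((s : ℕ) : ℤ), ← sum_ite b ((t : ℕ) : ℤ), ← sum_ite c ((r : ℕ) : ℤ),
    ← finsum_add_distrib (fin_ite _ _) (fin_ite _ _),
    ← finsum_add_distrib (((fin_ite _ _).union (fin_ite _ _)).subset (support_add _ _)) (fin_ite _ _)]
  refine finsum_congr fun v => ?_
  unfold tr
  rcases eq_or_ne v a with rfl | h1
  · simp [hab, hac]
  · rcases eq_or_ne v b with rfl | h2
    · simp [h1, hbc]
    · rcases eq_or_ne v c with rfl | h3 <;> simp [*]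

variable {N : Set G} {F : (G → Fin 3) → (G → Fin 3)}

namespace Good

theorem locA (h : Good N F) {x y : G → Fin 3} {a v : G} (hxy : ∀ w, w ≠ a → x w = y w) (hv : a - v ∉ N) :
    Z F x v = Z F y v := by
  unfold Z
  rw [h.loc x y v]
  intro u hu
  apply hxy
  intro he
  apply hv
  rw [← he]; simpa using hu

theorem injZ (h : Good N F) {x y : G → Fin 3} (hxy : ∀ v, Z F x v = Z F y v) : x = y := by
  apply h.inj
  ext v
  have := hxy v
  unfold Z at this
  exact_mod_cast this

theorem finZ (h : Good N F) {x : G → Fin 3} (hx : (support x).Finite) : (support (Z F x)).Finite :=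
  (h.nc x hx).1.subset fun v hv h0 => hv (by simp [Z, show F x v = 0 from h0])

theorem tot (h : Good N F) {x : G → Fin 3} (hx : (support x).Finite) :
    ∑ᶠ v, Z F x v = ∑ᶠ v, (((x v : Fin 3) : ℕ) : ℤ) := by
  have h1 := (h.nc x hx).2
  have h2 := congrArg (Nat.cast : ℕ → ℤ) h1
  have e1 : ((∑ᶠ v, ((F x v : Fin 3) : ℕ) : ℕ) : ℤ) = ∑ᶠ v, (((F x v : Fin 3) : ℕ) : ℤ) := by
    refine (Nat.castAddMonoidHom ℤ).map_finsum ?_
    exact (h.nc x hx).1.subset fun v hv h0 => hv (by simp [show F x v = 0 from h0])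
  have e2 : ((∑ᶠ v, ((x v : Fin 3) : ℕ) : ℕ) : ℤ) = ∑ᶠ v, (((x v : Fin 3) : ℕ) : ℤ) := by
    refine (Nat.castAddMonoidHom ℤ).map_finsum ?_
    exact hx.subset fun v hv h0 => hv (by simp [show x v = 0 from h0])
  rw [e1, e2] at h2
  exact h2

theorem Z_zero (h : Good N F) (v : G) : Z F 0 v = 0 := by
  have hf : (support (0 : G → Fin 3)).Finite := by simp
  have h1 := h.tot hf
  simp only [Pi.zero_apply, Fin.val_zero, Nat.cast_zero, finsum_zero] at h1
  have h2 := h.finZ hf
  have h3 := finsum_eq_sum_of_support_subset (s := h2.toFinset) (Z F 0) (by simp)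
  rw [h1] at h3
  by_contra hne
  have h4 := (Finset.sum_eq_zero_iff_of_nonneg (fun w _ => Z_nonneg F 0 w)).1 h3.symm v (by simpa using hne)
  exact hne h4

theorem Z_shift (h : Good N F) (x : G → Fin 3) (k v : G) : Z F (fun w => x (w + k)) v = Z F x (v + k) := by
  unfold Z; rw [h.shift]

theorem Z_sg (h : Good N F) (a : G) (s : Fin 3) (v : G) : Z F (sg a s) v = Z F (sg 0 s) (v - a) := by
  have := h.Z_shift (sg a s) a (v - a)
  rw [sub_add_cancel] at this
  rw [← this]
  congr 1
  ext w; simp [sg]

theorem Z_pr (h : Good N F) (a : G) (s : Fin 3) (b : G) (t : Fin 3) (k v : G) :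
    Z F (pr (a + k) s (b + k) t) (v + k) = Z F (pr a s b t) v := by
  rw [← h.Z_shift]
  congr 1
  ext w; simp [pr]

theorem sg_far (h : Good N F) {a v : G} (s : Fin 3) (hv : a - v ∉ N) : Z F (sg a s) v = 0 := by
  rw [h.locA (y := 0) (fun w hw => by simp [sg, hw]) hv, h.Z_zero]

theorem pr_swap {a b : G} (hab : a ≠ b) (s t : Fin 3) : pr a s b t = pr b t a s := by
  ext v
  unfold pr
  rcases eq_or_ne v a with rfl | h1
  · simp [hab]
  · simp [h1]

end Good

/-- pair interaction -/
def D (F : (G → Fin 3) → (G → Fin 3)) (a : G) (s : Fin 3) (b : G) (t : Fin 3) (v : G) : ℤ :=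
  Z F (pr a s b t) v - Z F (sg a s) v - Z F (sg b t) v

namespace Good

theorem D_left (h : Good N F) {a b v : G} (s t : Fin 3) (hv : a - v ∉ N) : D F a s b t v = 0 := by
  unfold D
  rw [h.sg_far s hv, h.locA (y := sg b t) (fun w hw => by simp [pr, sg, hw]) hv]; ring

theorem D_right (h : Good N F) {a b v : G} (s t : Fin 3) (hv : b - v ∉ N) : D F a s b t v = 0 := by
  unfold D
  rw [h.sg_far t hv, h.locA (y := sg a s) (fun w hw => by simp [pr, sg, hw]) hv]; ring

theorem D_swap {a b : G} (hab : a ≠ b) (s t : Fin 3) (v : G) : D F a s b t v = D F b t a s v := by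
  unfold D; rw [pr_swap hab]; ring

theorem D_shift (h : Good N F) (a b : G) (s t : Fin 3) (k v : G) :
    D F (a + k) s (b + k) t (v + k) = D F a s b t v := by
  unfold D
  rw [h.Z_pr, h.Z_sg (a + k), h.Z_sg (b + k), h.Z_sg a, h.Z_sg b]
  rw [show v + k - (a + k) = v - a by abel, show v + k - (b + k) = v - b by abel]

theorem D_sum (h : Good N F) {a b : G} (hab : a ≠ b) (s t : Fin 3) : ∑ᶠ v, D F a s b t v = 0 := by
  unfold D
  have f1 := h.finZ (pr_fin a s b t)
  have f2 := h.finZ (sg_fin a s)
  have f3 := h.finZ (sg_fin b t)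
  rw [finsum_sub_distrib ((f1.union f2).subset (support_sub _ _)) f3, finsum_sub_distrib f1 f2,
    h.tot (pr_fin _ _ _ _), h.tot (sg_fin _ _), h.tot (sg_fin _ _), pr_sum hab, sg_sum, sg_sum]
  ring

/-- two cells are seen by at most two cells -/
theorem view (h : Good N F) {a b v w : G} (hab : a ≠ b) (h1 : a - v ∈ N) (h2 : b - v ∈ N) (h3 : a - w ∈ N)
    (h4 : b - w ∈ N) : w = v ∨ w = a + b - v := by
  rcases h.sp _ h1 _ h4 _ h3 _ h2 (by abel) with e | e | e
  · left
    have : v = w := by simpa using e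
    exact this.symm
  · exact absurd (by simpa using e) hab
  · right
    have : b - w + (a - v) = 0 := by rw [e]; abel
    have e2 : w = b + a - v := by
      have : w = w + (b - w + (a - v)) := by rw [this, add_zero]
      rw [this]; abel
    rw [e2]; abel

theorem D_see (h : Good N F) {a b v : G} {s t : Fin 3} (hv : D F a s b t v ≠ 0) : a - v ∈ N ∧ b - v ∈ N := by
  constructor
  · by_contra hc; exact hv (h.D_left s t hc)
  · by_contra hc; exact hv (h.D_right s t hc)

theorem D_only (h : Good N F) {a b v w : G} {s t : Fin 3} (hab : a ≠ b) (hv : D F a s b t v ≠ 0)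
    (hw : D F a s b t w ≠ 0) : w = v ∨ w = a + b - v :=
  h.view hab (h.D_see hv).1 (h.D_see hv).2 (h.D_see hw).1 (h.D_see hw).2

theorem D_anti (h : Good N F) {a b : G} (hab : a ≠ b) (s t : Fin 3) (v : G) :
    D F a s b t (a + b - v) = - D F a s b t v := by
  by_cases hv : D F a s b t v = 0
  · rw [hv, neg_zero]
    by_contra hc
    have hsum := h.D_sum hab s t
    have hs : ∀ w, w ≠ a + b - v → D F a s b t w = 0 := by
      intro w hw
      by_contra hw2
      rcases h.D_only hab hc hw2 with e | e
      · exact hw e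
      · have : w = v := by rw [e]; abel
        rw [this] at hw2; exact hw2 hv
    rw [finsum_eq_single _ _ hs] at hsum
    exact hc hsum
  · have hsum := h.D_sum hab s t
    by_cases hvv : a + b - v = v
    · have hs : ∀ w, w ≠ v → D F a s b t w = 0 := by
        intro w hw
        by_contra hw2
        rcases h.D_only hab hv hw2 with e | e
        · exact hw e
        · rw [hvv] at e; exact hw e
      rw [finsum_eq_single _ _ hs] at hsum
      exact absurd hsum hv
    · have hs : support (D F a s b t) ⊆ (({v, a + b - v} : Finset G) : Set G) := by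
        intro w hw
        rcases h.D_only hab hv hw with e | e <;> simp [e]
      rw [finsum_eq_sum_of_support_subset _ hs, Finset.sum_pair (Ne.symm hvv)] at hsum
      linarith

/-- cells at distance `2 e` do not interact -/
theorem D_single (h : Good N F) {e : G} (he : e ∈ N) (he0 : e ≠ 0) (a : G) (s t : Fin 3) (v : G) :
    D F a s (a + e + e) t v = 0 := by
  have hab : a ≠ a + e + e := by
    intro hc
    apply he0
    apply h.two
    have : a + (e + e) = a + 0 := by rw [add_zero, ← add_assoc]; exact hc.symm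
    exact add_left_cancel this
  by_contra hv
  have h1 : a - (a + e) ∈ N := by
    have := h.neg_mem e he
    have e1 : a - (a + e) = -e := by abel
    rwa [e1]
  have h2 : a + e + e - (a + e) ∈ N := by
    have e1 : a + e + e - (a + e) = e := by abel
    rwa [e1]
  have h3 : v = a + e := by
    rcases h.view hab h1 h2 (h.D_see hv).1 (h.D_see hv).2 with e1 | e1
    · exact e1
    · rw [e1]; abel
  have h4 := h.D_anti hab s t v
  have h5 : a + (a + e + e) - v = v := by rw [h3]; abel
  rw [h5] at h4
  exact hv (by linarith)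

theorem T3 (h : Good N F) {a b c : G} (hab : a ≠ b) (hac : a ≠ c) (hbc : b ≠ c) (s t r : Fin 3) (v : G) :
    Z F (tr a s b t c r) v = Z F (pr a s b t) v + Z F (pr a s c r) v + Z F (pr b t c r) v
      - Z F (sg a s) v - Z F (sg b t) v - Z F (sg c r) v := by
  set E : G → ℤ := fun v => Z F (tr a s b t c r) v - Z F (pr a s b t) v - Z F (pr a s c r) v - Z F (pr b t c r) v
      + Z F (sg a s) v + Z F (sg b t) v + Z F (sg c r) v with hE
  have hsee : ∀ w, E w ≠ 0 → a - w ∈ N ∧ b - w ∈ N ∧ c - w ∈ N := by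
    intro w hw
    refine ⟨?_, ?_, ?_⟩
    · by_contra hc
      apply hw
      simp only [hE]
      rw [h.locA (x := tr a s b t c r) (y := pr b t c r) (a := a) (fun z hz => by simp [tr, pr, hz]) hc,
        h.locA (x := pr a s b t) (y := sg b t) (a := a) (fun z hz => by simp [pr, sg, hz]) hc,
        h.locA (x := pr a s c r) (y := sg c r) (a := a) (fun z hz => by simp [pr, sg, hz]) hc,
        h.sg_far s hc]
      ring
    · by_contra hc
      apply hw
      simp only [hE]
      rw [h.locA (x := tr a s b t c r) (y := pr a s c r) (a := b) (fun z hz => by simp [tr, pr, hz]) hc,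
        h.locA (x := pr a s b t) (y := sg a s) (a := b) (fun z hz => by simp [pr, sg, hz]) hc,
        h.locA (x := pr b t c r) (y := sg c r) (a := b) (fun z hz => by simp [pr, sg, hz]) hc,
        h.sg_far t hc]
      ring
    · by_contra hc
      apply hw
      simp only [hE]
      rw [h.locA (x := tr a s b t c r) (y := pr a s b t) (a := c) (fun z hz => by simp [tr, pr, hz]) hc,
        h.locA (x := pr a s c r) (y := sg a s) (a := c) (fun z hz => by simp [pr, sg, hz]) hc,
        h.locA (x := pr b t c r) (y := sg b t) (a := c) (fun z hz => by simp [pr, sg, hz]) hc,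
        h.sg_far r hc]
      ring
  have hsum : ∑ᶠ v, E v = 0 := by
    have f0 := h.finZ (tr_fin a s b t c r)
    have f1 := h.finZ (pr_fin a s b t)
    have f2 := h.finZ (pr_fin a s c r)
    have f3 := h.finZ (pr_fin b t c r)
    have f4 := h.finZ (sg_fin a s)
    have f5 := h.finZ (sg_fin b t)
    have f6 := h.finZ (sg_fin c r)
    have g1 := (f0.union f1).subset (support_sub (Z F (tr a s b t c r)) (Z F (pr a s b t)))
    have g2 := (g1.union f2).subset (support_sub _ (Z F (pr a s c r)))
    have g3 := (g2.union f3).subset (support_sub _ (Z F (pr b t c r)))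
    have g4 := (g3.union f4).subset (support_add _ (Z F (sg a s)))
    have g5 := (g4.union f5).subset (support_add _ (Z F (sg b t)))
    simp only [hE]
    rw [finsum_add_distrib g5 f6, finsum_add_distrib g4 f5, finsum_add_distrib g3 f4, finsum_sub_distrib g2 f3,
      finsum_sub_distrib g1 f2, finsum_sub_distrib f0 f1, h.tot (tr_fin _ _ _ _ _ _), h.tot (pr_fin _ _ _ _),
      h.tot (pr_fin _ _ _ _), h.tot (pr_fin _ _ _ _), h.tot (sg_fin _ _), h.tot (sg_fin _ _), h.tot (sg_fin _ _),
      tr_sum hab hac hbc, pr_sum hab, pr_sum hac, pr_sum hbc, sg_sum, sg_sum, sg_sum]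
    ring
  have hEv : E v = 0 := by
    by_contra hv
    have hs : ∀ w, w ≠ v → E w = 0 := by
      intro w hw
      by_contra hw2
      obtain ⟨p1, p2, p3⟩ := hsee v hv
      obtain ⟨q1, q2, q3⟩ := hsee w hw2
      rcases h.view hab p1 p2 q1 q2 with e | e
      · exact hw e
      · rcases h.view hac p1 p3 q1 q3 with e' | e'
        · exact hw e'
        · rw [e] at e'
          apply hbc
          have : a + b = a + c := by simpa using e'
          exact add_left_cancel this
    rw [finsum_eq_single _ _ hs] at hsum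
    exact hv hsum
  simp only [hE] at hEv
  linarith

end Good

end Pool.Agent.Q21.NC
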