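import Pool.Agent.Q21.NC.StepD

/-!
Injective number-conserving three-state automata with pair interactions are shifts.
-/

namespace Pool.Agent.Q21.NC

open Function Set

variable {G : Type*} [AddCommGroup G] [DecidableEq G] {N : Set G} {F : (G → Fin 3) → (G → Fin 3)}

namespace Good

theorem on_finite (h : Good N F) {u : G} (hu : u ∈ N)
    (hs : ∀ (s : Fin 3) a v, Z F (sg a s) v = if v = a - u then ((s : ℕ) : ℤ) else 0)
    (hD : ∀ s t : Fin 3, s ≠ 0 → t ≠ 0 → ∀ a b : G, a ≠ b → ∀ v, D F a s b t v = 0) (n : ℕ) :
    ∀ x : G → Fin 3, (support x).Finite → (support x).ncard = n → ∀ v, Z F x v = ((x (v + u) : Fin 3) : ℕ) := by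
  have key : ∀ a v : G, (v + u = a) = (v = a - u) := by
    intro a v
    simp only [eq_iff_iff]
    exact ⟨fun e => by rw [← e]; abel, fun e => by rw [e]; abel⟩
  induction n using Nat.strong_induction_on with
  | _ n ih =>
    intro x hx hn v
    rcases Nat.lt_or_ge 2 n with h3 | h3
    · rw [← hn] at h3
      obtain ⟨a, b, c, ha, hb, hc, hab, hac, hbc⟩ := (Set.two_lt_ncard_iff hx).1 h3
      set E : G → ℤ := fun v => Z F x v - ((x (v + u) : Fin 3) : ℕ) with hE
      have hsee : ∀ w, E w ≠ 0 → ∀ p ∈ support x, p - w ∈ N := by
        intro w hw p hp
        by_contra hcon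
        apply hw
        have hlt : (support (update x p 0)).ncard < n := by
          rw [← hn]
          apply Set.ncard_lt_ncard _ hx
          refine ⟨fun z hz => ?_, fun hsub => ?_⟩
          · by_cases e : z = p
            · rw [e]; exact hp
            · simpa [mem_support, update_of_ne e] using hz
          · have := hsub hp
            simp at this
        have hfin : (support (update x p 0)).Finite := hx.subset fun z hz => by
          by_cases e : z = p
          · rw [e]; exact hp
          · simpa [mem_support, update_of_ne e] using hz
        have h1 := ih _ hlt _ hfin rfl w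
        have h2 := h.locA (x := x) (y := update x p 0) (a := p) (v := w)
          (fun z hz => (update_of_ne hz _ _).symm) hcon
        have h4 : w + u ≠ p := by
          intro e
          apply hcon
          rw [← e, add_sub_cancel_left]; exact hu
        rw [update_of_ne h4] at h1
        simp only [hE]
        rw [h2, h1]; ring
      have hsupp2 : (support fun v => (((x (v + u) : Fin 3) : ℕ) : ℤ)).Finite := by
        refine (hx.preimage (f := fun v => v + u) (fun p _ q _ e => by simpa using e)).subset fun z hz => ?_
        simp only [mem_preimage, mem_support]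
        intro e
        apply hz
        simp [e]
      have hsum : ∑ᶠ v, E v = 0 := by
        simp only [hE]
        rw [finsum_sub_distrib (h.finZ hx) hsupp2, h.tot hx]
        have := finsum_comp_equiv (Equiv.addRight u) (f := fun v => (((x v : Fin 3) : ℕ) : ℤ))
        simp only [Equiv.coe_addRight] at this
        rw [this]; ring
      have hEv : E v = 0 := by
        by_contra hv
        have hs1 : ∀ w, w ≠ v → E w = 0 := by
          intro w hw
          by_contra hw2
          rcases h.view hab (hsee v hv a ha) (hsee v hv b hb) (hsee w hw2 a ha) (hsee w hw2 b hb) with e | e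
          · exact hw e
          · rcases h.view hac (hsee v hv a ha) (hsee v hv c hc) (hsee w hw2 a ha) (hsee w hw2 c hc) with e' | e'
            · exact hw e'
            · rw [e] at e'
              apply hbc
              have : a + b = a + c := by simpa using e'
              exact add_left_cancel this
        rw [finsum_eq_single _ _ hs1] at hsum
        exact hv hsum
      simp only [hE] at hEv
      linarith
    · interval_cases n
      · have h0 : x = 0 := by
          rw [Set.ncard_eq_zero hx] at hn
          exact support_eq_empty_iff.1 hn
        rw [h0, h.Z_zero]; simp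
      · obtain ⟨a, ha⟩ := Set.ncard_eq_one.1 hn
        have hxa : x = sg a (x a) := by
          ext z
          unfold sg
          split_ifs with e
          · rw [e]
          · have : z ∉ support x := by rw [ha]; exact e
            rw [notMem_support.1 this]
        rw [hxa, hs]
        simp only [sg, key]
        split_ifs <;> simp
      · obtain ⟨a, b, hab, ha⟩ := Set.ncard_eq_two.1 hn
        have hxa : x = pr a (x a) b (x b) := by
          ext z
          unfold pr
          split_ifs with e e'
          · rw [e]
          · rw [e']
          · have : z ∉ support x := by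
              rw [ha]; simp [e, e']
            rw [notMem_support.1 this]
        have h1 : x a ≠ 0 := by
          have : a ∈ support x := by rw [ha]; simp
          exact this
        have h2 : x b ≠ 0 := by
          have : b ∈ support x := by rw [ha]; simp
          exact this
        rw [hxa, Z_pr_eq, hs, hs, hD _ _ h1 h2 a b hab]
        simp only [pr, key]
        by_cases e1 : v = a - u
        · have e2 : v ≠ b - u := by
            intro e2
            exact hab (by rw [e1] at e2; simpa using e2)
          rw [if_pos e1, if_neg e2, if_pos e1]; simp
        · rw [if_neg e1, if_neg e1]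
          split_ifs <;> simp

/-- an injective number-conserving three-state automaton with pair interactions is a shift -/
theorem main (h : Good N F) : ∃ u ∈ N, ∀ x v, F x v = x (v + u) := by
  classical
  obtain ⟨u, hu, h1⟩ := h.exists_u1
  obtain ⟨q, hq, h2⟩ := h.exists_whole hu h1
  have huq := h.same_vec hu hq h1 h2
  subst huq
  have hs : ∀ (s : Fin 3) a v, Z F (sg a s) v = if v = a - u then ((s : ℕ) : ℤ) else 0 := by
    intro s a v
    fin_cases s
    · have : sg a (0 : Fin 3) = 0 := by ext z; simp [sg]
      show Z F (sg a 0) v = _
      rw [this, h.Z_zero]; simp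
    · show Z F (sg a 1) v = _
      rw [h1]; simp
    · show Z F (sg a 2) v = _
      rw [h2]; unfold I; split_ifs <;> simp
  have h11 : ∀ a b : G, a ≠ b → ∀ v, D F a 1 b 1 v = 0 := fun a b hab v => h.D11 hu h1 h2 hab v
  have h1222 : (∀ a b : G, a ≠ b → ∀ v, D F a 1 b 2 v = 0) ∧ (∀ a b : G, a ≠ b → ∀ v, D F a 2 b 2 v = 0) := by
    by_cases hu0 : u = 0
    · subst hu0
      exact h.D_all_zero hs h11
    · exact h.D_all_ne hu hu0 hs h11
  have hD : ∀ s t : Fin 3, s ≠ 0 → t ≠ 0 → ∀ a b : G, a ≠ b → ∀ v, D F a s b t v = 0 := by
    intro s t hs0 ht0 a b hab v
    fin_cases s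
    · exact absurd rfl hs0
    · fin_cases t
      · exact absurd rfl ht0
      · exact h11 a b hab v
      · exact h1222.1 a b hab v
    · fin_cases t
      · exact absurd rfl ht0
      · show D F a 2 b 1 v = 0
        rw [D_swap hab]; exact h1222.1 b a hab.symm v
      · exact h1222.2 a b hab v
  have hfin : ∀ x : G → Fin 3, (support x).Finite → ∀ v, F x v = x (v + u) := by
    intro x hx v
    have := h.on_finite hu hs hD _ x hx rfl v
    unfold Z at this
    exact Fin.ext (by exact_mod_cast this)
  refine ⟨u, hu, fun x v => ?_⟩
  set y : G → Fin 3 := fun w => if w - v ∈ N then x w else 0 with hy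
  have hyf : (support y).Finite := by
    refine (h.fin.image (fun w => v + w)).subset fun z hz => ?_
    have : z - v ∈ N := by
      by_contra hc
      exact hz (by simp [hy, hc])
    exact ⟨z - v, this, by simp⟩
  have hxy : F x v = F y v := by
    apply h.loc
    intro w hw
    simp [hy, hw]
  rw [hxy, hfin y hyf]
  simp [hy, hu]

end Good

end Pool.Agent.Q21.NC
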