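import Pool.Agent.Q21.NC.Final

/-!
The von Neumann neighbourhood of `ℤ^d`.
-/

namespace Pool.Agent.Q21.NC

open Function Set

/-- the von Neumann neighbourhood `{0, ±e_1, …, ±e_d}` -/
def VN (d : ℕ) : Set (Fin d → ℤ) := {u | u = 0 ∨ ∃ i, u = Pi.single i 1 ∨ u = -Pi.single i 1}

theorem VN_iff {d : ℕ} {u : Fin d → ℤ} (hu : u ∈ VN d) (i₀ : Fin d) :
    ∃ (i : Fin d) (c : ℤ), (c = -1 ∨ c = 0 ∨ c = 1) ∧ u = Pi.single i c := by
  rcases hu with rfl | ⟨i, rfl | rfl⟩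
  · exact ⟨i₀, 0, by simp, by simp⟩
  · exact ⟨i, 1, by simp, rfl⟩
  · exact ⟨i, -1, by simp, by rw [Pi.single_neg]⟩

theorem VN_finite (d : ℕ) : (VN d).Finite := by
  have : VN d = {0} ∪ (range (fun i : Fin d => (Pi.single i 1 : Fin d → ℤ)) ∪
      range (fun i : Fin d => (-Pi.single i 1 : Fin d → ℤ))) := by
    ext u
    simp only [VN, mem_setOf_eq, mem_union, mem_singleton_iff, mem_range]
    constructor
    · rintro (h | ⟨i, h | h⟩)
      · exact Or.inl h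
      · exact Or.inr (Or.inl ⟨i, h.symm⟩)
      · exact Or.inr (Or.inr ⟨i, h.symm⟩)
    · rintro (h | ⟨i, h⟩ | ⟨i, h⟩)
      · exact Or.inl h
      · exact Or.inr ⟨i, Or.inl h.symm⟩
      · exact Or.inr ⟨i, Or.inr h.symm⟩
  rw [this]
  exact (finite_singleton _).union ((finite_range _).union (finite_range _))

theorem VN_neg {d : ℕ} {u : Fin d → ℤ} (hu : u ∈ VN d) : -u ∈ VN d := by
  rcases hu with rfl | ⟨i, rfl | rfl⟩
  · left; simp
  · right; exact ⟨i, Or.inr rfl⟩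
  · right; exact ⟨i, Or.inl (by simp)⟩

theorem VN_sp {d : ℕ} : ∀ u ∈ VN d, ∀ w' ∈ VN d, ∀ w ∈ VN d, ∀ u' ∈ VN d,
    u + w' = w + u' → u = w ∨ u = u' ∨ w' = -u := by
  intro u hu w' hw' w hw u' hu' heq
  rcases isEmpty_or_nonempty (Fin d) with hd | ⟨⟨i₀⟩⟩
  · left; ext i; exact (hd.false i).elim
  obtain ⟨i, c, hc, rfl⟩ := VN_iff hu i₀
  obtain ⟨k, e, he, rfl⟩ := VN_iff hw' i₀
  obtain ⟨j, a, ha, rfl⟩ := VN_iff hw i₀
  obtain ⟨l, b, hb, rfl⟩ := VN_iff hu' i₀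
  have q1 := congrFun heq i
  have q2 := congrFun heq k
  have q3 := congrFun heq j
  have q4 := congrFun heq l
  simp only [Pi.add_apply, Pi.single_apply, if_true] at q1 q2 q3 q4
  have key : (c = a ∧ (i = j ∨ c = 0)) ∨ (c = b ∧ (i = l ∨ c = 0)) ∨ (e = -c ∧ (k = i ∨ c = 0)) := by
    clear hu hw' hw hu' heq
    have s1 : (k = i) = (i = k) := propext eq_comm
    have s2 : (j = i) = (i = j) := propext eq_comm
    have s3 : (l = i) = (i = l) := propext eq_comm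
    have s4 : (j = k) = (k = j) := propext eq_comm
    have s5 : (l = k) = (k = l) := propext eq_comm
    have s6 : (l = j) = (j = l) := propext eq_comm
    simp only [s1, s2, s3, s4, s5, s6] at q1 q2 q3 q4 ⊢
    clear s1 s2 s3 s4 s5 s6
    simp only [Fin.ext_iff] at q1 q2 q3 q4 ⊢
    split_ifs at q1 q2 q3 q4 <;> omega
  rcases key with ⟨h1, h2 | h2⟩ | ⟨h1, h2 | h2⟩ | ⟨h1, h2 | h2⟩
  · left; rw [h1, h2]
  · left; rw [← h1, h2]; simp
  · right; left; rw [h1, h2]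
  · right; left; rw [← h1, h2]; simp
  · right; right; rw [h1, h2, Pi.single_neg]
  · right; right; rw [h1, h2]; simp

end Pool.Agent.Q21.NC
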