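import Pool.Agent.Q21.NC.Core

/-!
Injective number-conserving three-state cellular automata with pair interactions only are shifts.
-/

namespace Pool.Agent.Q21.NC

open Function Set

variable {G : Type*} [AddCommGroup G] [DecidableEq G] {N : Set G} {F : (G → Fin 3) → (G → Fin 3)}

/-- a finitely supported function with sum `n` is the counting function of a multiset -/
theorem exists_multiset (g : G → ℕ) (hg : (support g).Finite) :
    ∃ m : Multiset G, Multiset.card m = ∑ᶠ v, g v ∧ ∀ v, g v = m.count v := by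
  classical
  refine ⟨(Finsupp.ofSupportFinite g hg).toMultiset, ?_, fun v => ?_⟩
  · rw [Finsupp.card_toMultiset, finsum_eq_sum_of_support_subset g (s := hg.toFinset) (by simp), Finsupp.sum]
    refine Finset.sum_congr ?_ fun v _ => rfl
    ext v
    simp [Finsupp.ofSupportFinite]
  · rw [Finsupp.count_toMultiset]; rfl

namespace Good

theorem natSupp (h : Good N F) {x : G → Fin 3} (hx : (support x).Finite) :
    (support fun v => ((F x v : Fin 3) : ℕ)).Finite :=
  (h.nc x hx).1.subset fun v hv h0 => hv (by simp [show F x v = 0 from h0])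

theorem natSum_sg (a : G) (s : Fin 3) : ∑ᶠ v, ((sg a s v : Fin 3) : ℕ) = (s : ℕ) := by
  rw [finsum_eq_single _ a (fun v hv => by simp [sg, hv])]
  simp [sg]

theorem see_of_pos (h : Good N F) {a v : G} {s : Fin 3} (hv : Z F (sg a s) v ≠ 0) : a - v ∈ N := by
  by_contra hc; exact hv (h.sg_far s hc)

theorem exists_u1 (h : Good N F) : ∃ u ∈ N, ∀ a v, Z F (sg a 1) v = if v = a - u then 1 else 0 := by
  obtain ⟨m, hm1, hm2⟩ := exists_multiset _ (h.natSupp (sg_fin (0 : G) 1))
  rw [(h.nc _ (sg_fin _ _)).2, natSum_sg] at hm1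
  obtain ⟨p, hp⟩ := Multiset.card_eq_one.1 hm1
  have h1 : ∀ v, Z F (sg (0 : G) 1) v = if v = p then 1 else 0 := by
    intro v
    unfold Z
    rw [hm2 v, hp, Multiset.count_singleton]
    split_ifs <;> rfl
  have h2 : -p ∈ N := by
    have := h.see_of_pos (a := 0) (s := 1) (v := p) (by rw [h1]; simp)
    simpa using this
  refine ⟨-p, h2, fun a v => ?_⟩
  rw [h.Z_sg, h1]
  congr 1
  simp only [eq_iff_iff, sub_neg_eq_add]
  constructor
  · intro e; rw [← e]; abel
  · intro e; rw [e]; abel

theorem exists_u2 (h : Good N F) : ∃ p ∈ N, ∃ q ∈ N, ∀ a v,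
    Z F (sg a 2) v = (if v = a - p then 1 else 0) + (if v = a - q then 1 else 0) := by
  obtain ⟨m, hm1, hm2⟩ := exists_multiset _ (h.natSupp (sg_fin (0 : G) 2))
  rw [(h.nc _ (sg_fin _ _)).2, natSum_sg] at hm1
  obtain ⟨p, q, hpq⟩ := Multiset.card_eq_two.1 hm1
  have h1 : ∀ v, Z F (sg (0 : G) 2) v = (if v = p then 1 else 0) + (if v = q then 1 else 0) := by
    intro v
    unfold Z
    rw [hm2 v, hpq, Multiset.insert_eq_cons, Multiset.count_cons, Multiset.count_singleton]
    split_ifs <;> rfl
  have h2 : -p ∈ N := by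
    have := h.see_of_pos (a := 0) (s := 2) (v := p) (by rw [h1, if_pos rfl]; split_ifs <;> norm_num)
    simpa using this
  have h3 : -q ∈ N := by
    have := h.see_of_pos (a := 0) (s := 2) (v := q) (by rw [h1, if_pos (rfl : q = q)]; split_ifs <;> norm_num)
    simpa using this
  have key : ∀ a v r : G, (v - a = r) = (v = a - -r) := by
    intro a v r
    simp only [eq_iff_iff, sub_neg_eq_add]
    constructor
    · intro e; rw [← e]; abel
    · intro e; rw [e]; abel
  refine ⟨-p, h2, -q, h3, fun a v => ?_⟩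
  rw [h.Z_sg, h1]
  simp only [key]

theorem Z_pr_eq (a : G) (s : Fin 3) (b : G) (t : Fin 3) (v : G) :
    Z F (pr a s b t) v = Z F (sg a s) v + Z F (sg b t) v + D F a s b t v := by
  unfold D; ring

/-- moving: the states `s` and `t` move by `-u`, `u ≠ 0`, and `v` gets a positive amount -/
theorem no_full (h : Good N F) {u : G} (hu : u ∈ N) (hu0 : u ≠ 0) {s t : Fin 3} (ht : t ≠ 0)
    (hs1 : ∀ a v, Z F (sg a s) v = if v = a - u then ((s : ℕ) : ℤ) else 0)
    (ht1 : ∀ a v, Z F (sg a t) v = if v = a - u then ((t : ℕ) : ℤ) else 0)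
    {a b : G} (hab : a ≠ b) (h1 : D F a s b t (b - u) = -((t : ℕ) : ℤ)) : False := by
  have hne : D F a s b t (b - u) ≠ 0 := by
    rw [h1, neg_ne_zero]
    have : (t : ℕ) ≠ 0 := fun h0 => ht (Fin.ext h0)
    exact_mod_cast this
  have hv : D F a s b t (a + u) = ((t : ℕ) : ℤ) := by
    have := h.D_anti hab s t (b - u)
    rw [h1, neg_neg] at this
    rw [← this]; congr 1; abel
  have hx : pr a s b t = pr a s (a + u + u) t := by
    apply h.injZ
    intro v
    rw [Z_pr_eq, Z_pr_eq, h.D_single hu hu0, hs1, ht1, ht1, show a + u + u - u = a + u by abel]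
    by_cases e1 : v = b - u
    · have e2 : v ≠ a + u := by
        intro e3
        rw [← e1, e3, hv] at h1
        have : (0 : ℤ) < ((t : ℕ) : ℤ) := by
          have : (t : ℕ) ≠ 0 := fun h0 => ht (Fin.ext h0)
          omega
        omega
      rw [e1] at e2 ⊢
      rw [h1, if_pos rfl, if_neg e2]; ring
    · by_cases e2 : v = a + u
      · rw [e2, hv]
        have e4 : ¬ (a + u = b - u) := by rw [← e2]; exact e1
        rw [if_neg e4, if_pos (rfl : a + u = a + u)]; ring
      · have e3 : D F a s b t v = 0 := by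
          by_contra hc
          rcases h.D_only hab hne hc with e | e
          · exact e1 e
          · exact e2 (e.trans (by abel))
        rw [e3, if_neg e1, if_neg e2]
  have hb := congrFun hx b
  simp only [pr, if_neg hab.symm, if_true] at hb
  by_cases e : b = a + u + u
  · rw [e] at hne
    exact hne (h.D_single hu hu0 a s t _)
  · rw [if_neg e] at hb; exact ht hb

/-- where the negative part of the interaction sits -/
theorem neg_spot (h : Good N F) {u : G} {s t : Fin 3}
    (hs1 : ∀ a v, Z F (sg a s) v = if v = a - u then ((s : ℕ) : ℤ) else 0)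
    (ht1 : ∀ a v, Z F (sg a t) v = if v = a - u then ((t : ℕ) : ℤ) else 0)
    {a b v : G} (hab : a ≠ b) (hv : D F a s b t v < 0) :
    (v = a - u ∧ -((s : ℕ) : ℤ) ≤ D F a s b t v) ∨ (v = b - u ∧ -((t : ℕ) : ℤ) ≤ D F a s b t v) := by
  have h1 := Z_nonneg F (pr a s b t) v
  rw [Z_pr_eq, hs1, ht1] at h1
  by_cases e1 : v = a - u
  · have e2 : v ≠ b - u := by
      intro e2
      exact hab (by rw [e1] at e2; simpa using e2)
    rw [if_pos e1, if_neg e2] at h1
    left; exact ⟨e1, by linarith⟩
  · by_cases e2 : v = b - u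
    · rw [if_neg e1, if_pos e2] at h1
      right; exact ⟨e2, by linarith⟩
    · rw [if_neg e1, if_neg e2] at h1
      exfalso; linarith

theorem exists_neg (h : Good N F) {a b v : G} {s t : Fin 3} (hab : a ≠ b) (hv : D F a s b t v ≠ 0) :
    ∃ w, D F a s b t w < 0 := by
  rcases lt_or_gt_of_ne hv with h1 | h1
  · exact ⟨v, h1⟩
  · exact ⟨a + b - v, by rw [h.D_anti hab]; linarith⟩

/-- two states `1` do not interact when `1` moves -/
theorem D11_of_ne (h : Good N F) {u : G} (hu : u ∈ N) (hu0 : u ≠ 0)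
    (h1 : ∀ a v, Z F (sg a 1) v = if v = a - u then 1 else 0) {a b : G} (hab : a ≠ b) (v : G) :
    D F a 1 b 1 v = 0 := by
  by_contra hv
  have h1' : ∀ a v, Z F (sg a (1 : Fin 3)) v = if v = a - u then (((1 : Fin 3) : ℕ) : ℤ) else 0 := by
    intro a v; rw [h1]; norm_num
  obtain ⟨w, hw⟩ := h.exists_neg hab hv
  rcases h.neg_spot h1' h1' hab hw with ⟨e1, e2⟩ | ⟨e1, e2⟩
  · rw [e1] at hw e2
    have e3 : D F b 1 a 1 (a - u) = -(((1 : Fin 3) : ℕ) : ℤ) := by
      rw [D_swap hab.symm]
      norm_num at e2 ⊢; omega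
    exact h.no_full hu hu0 (by decide) h1' h1' hab.symm e3
  · rw [e1] at hw e2
    have e3 : D F a 1 b 1 (b - u) = -(((1 : Fin 3) : ℕ) : ℤ) := by
      norm_num at e2 ⊢; omega
    exact h.no_full hu hu0 (by decide) h1' h1' hab e3

end Good

end Pool.Agent.Q21.NC
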