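import Pool.Agent.Q21.NC.Grid

/-!
Cellular automata with the von Neumann neighbourhood, number conservation on periodic and on finite
configurations.
-/

namespace Pool.Agent.Q21.NC

open Function Set

/-- the global map of the local rule `f` -/
def globalMap {d : ℕ} (f : (VN d → Fin 3) → Fin 3) (x : (Fin d → ℤ) → Fin 3) : (Fin d → ℤ) → Fin 3 :=
  fun v => f (fun u => x (v + u))

/-- the cells of one period with side lengths `L i` -/
noncomputable def box {d : ℕ} (L : Fin d → ℕ) : Finset (Fin d → ℤ) := Fintype.piFinset fun i => Finset.Ico 0 (L i : ℤ)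

/-- the sum of states over a period of every periodic configuration is preserved -/
def ConservesPeriodic {d : ℕ} (f : (VN d → Fin 3) → Fin 3) : Prop :=
  ∀ L : Fin d → ℕ, (∀ i, 0 < L i) → ∀ x : (Fin d → ℤ) → Fin 3,
    (∀ i v, x (v + Pi.single i (L i : ℤ)) = x v) →
      ∑ v ∈ box L, (globalMap f x v : ℕ) = ∑ v ∈ box L, (x v : ℕ)

/-- the sum of states of every configuration with finitely many nonzero cells is preserved -/
def ConservesFinite {d : ℕ} (f : (VN d → Fin 3) → Fin 3) : Prop :=
  ∀ x : (Fin d → ℤ) → Fin 3, (support x).Finite →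
    (support (globalMap f x)).Finite ∧ ∑ᶠ v, (globalMap f x v : ℕ) = ∑ᶠ v, (x v : ℕ)

theorem finsum_box {d : ℕ} (n : ℕ) (g : (Fin d → ℤ) → ℕ) (hg : ∀ w, g w ≠ 0 → ∀ i, |w i| ≤ n) :
    ∑ᶠ v, g v = ∑ v ∈ box (fun _ : Fin d => 2 * n + 1), g (fun i => v i - n) := by
  have h1 := finsum_comp_equiv (Equiv.subRight (fun _ : Fin d => (n : ℤ))) (f := g)
  rw [← h1]
  apply finsum_eq_sum_of_support_subset
  intro v hv
  rw [mem_support] at hv
  have h2 := hg _ hv
  rw [box, Finset.mem_coe, Fintype.mem_piFinset]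
  intro i
  have h3 := h2 i
  simp only [Equiv.subRight_apply, Pi.sub_apply] at h3
  rw [abs_le] at h3
  rw [Finset.mem_Ico]
  push_cast
  omega

theorem VN_abs {d : ℕ} {u : Fin d → ℤ} (hu : u ∈ VN d) (i : Fin d) : -1 ≤ u i ∧ u i ≤ 1 := by
  rcases hu with rfl | ⟨j, rfl | rfl⟩
  · simp
  · simp only [Pi.single_apply]; split_ifs <;> norm_num
  · simp only [Pi.neg_apply, Pi.single_apply]; split_ifs <;> norm_num

theorem finite_of_periodic {d : ℕ} {f : (VN d → Fin 3) → Fin 3} (hf : ConservesPeriodic f) : ConservesFinite f := by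
  -- the zero configuration is fixed
  have hf0 : f (fun _ => 0) = 0 := by
    have h1 := hf (fun _ => 1) (fun _ => Nat.one_pos) (fun _ => 0) (fun _ _ => rfl)
    simp only [globalMap, Fin.val_zero, Finset.sum_const, smul_eq_mul, mul_zero] at h1
    have h2 : (box (fun _ : Fin d => 1)).card = 1 := by
      rw [box, Fintype.card_piFinset]; simp
    rw [h2, one_mul] at h1
    exact Fin.ext h1
  intro x hx
  obtain ⟨M, hM⟩ : ∃ M : ℕ, ∀ w, x w ≠ 0 → ∀ i, |w i| ≤ M := by
    refine ⟨hx.toFinset.sup (fun v => Finset.univ.sup (fun i => (v i).natAbs)), fun w hw i => ?_⟩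
    have h1 : (fun v : Fin d → ℤ => Finset.univ.sup (fun i => (v i).natAbs)) w ≤ _ :=
      Finset.le_sup (f := fun v : Fin d → ℤ => Finset.univ.sup (fun i => (v i).natAbs))
        (s := hx.toFinset) (b := w) (by simpa using hw)
    have h2 : (w i).natAbs ≤ Finset.univ.sup (fun i => (w i).natAbs) :=
      Finset.le_sup (f := fun i => (w i).natAbs) (Finset.mem_univ i)
    rw [Int.abs_eq_natAbs]
    exact_mod_cast h2.trans h1
  have hFx : ∀ w, globalMap f x w ≠ 0 → ∀ i, |w i| ≤ ((M + 1 : ℕ) : ℤ) := by
    intro w hw i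
    by_contra hc
    apply hw
    rw [globalMap, ← hf0]
    congr 1
    ext u
    have : x (w + u) = 0 := by
      by_contra hx0
      have h1 := hM _ hx0 i
      have h2 := VN_abs u.2 i
      simp only [Pi.add_apply] at h1
      rw [abs_le] at h1 hc
      push_cast at hc
      omega
    rw [this]
  set y : (Fin d → ℤ) → Fin 3 := fun v => x (fun i => v i % (2 * (M + 1 : ℕ) + 1 : ℤ) - (M + 1 : ℕ)) with hy
  have hper := hf (fun _ => 2 * (M + 1) + 1) (fun _ => by omega) y (fun i v => by
    simp only [hy]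
    congr 1
    ext j
    congr 1
    simp only [Pi.add_apply, Pi.single_apply]
    split_ifs
    · push_cast
      rw [Int.add_emod_right]
    · rw [add_zero])
  have hbox : ∀ v ∈ box (fun _ : Fin d => 2 * (M + 1) + 1), y v = x (fun i => v i - (M + 1 : ℕ)) := by
    intro v hv
    rw [box, Fintype.mem_piFinset] at hv
    simp only [hy]
    congr 1
    ext i
    have h1 := hv i
    rw [Finset.mem_Ico] at h1
    push_cast at h1 ⊢
    rw [Int.emod_eq_of_lt h1.1 h1.2]
  have hboxF : ∀ v ∈ box (fun _ : Fin d => 2 * (M + 1) + 1),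
      globalMap f y v = globalMap f x (fun i => v i - (M + 1 : ℕ)) := by
    intro v hv
    rw [box, Fintype.mem_piFinset] at hv
    unfold globalMap
    congr 1
    ext u
    by_cases hin : ∀ i, 0 ≤ (v + u.1) i ∧ (v + u.1) i < 2 * (M + 1 : ℕ) + 1
    · simp only [hy]
      congr 2
      ext i
      rw [Int.emod_eq_of_lt (hin i).1 (hin i).2]
      simp only [Pi.add_apply]; ring
    · push Not at hin
      obtain ⟨i, hi⟩ := hin
      have h1 := hv i
      rw [Finset.mem_Ico] at h1
      have h2 := VN_abs u.2 i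
      have hcase : (v + u.1) i = -1 ∨ (v + u.1) i = 2 * (M + 1 : ℕ) + 1 := by
        simp only [Pi.add_apply] at hi ⊢
        push_cast at hi h1 ⊢
        omega
      have e1 : y (v + u) = 0 := by
        by_contra hx0
        have h3 : |(v + u.1) i % (2 * ((M + 1 : ℕ) : ℤ) + 1) - ((M + 1 : ℕ) : ℤ)| ≤ M := hM _ hx0 i
        rcases hcase with e | e
        · rw [e, show (-1 : ℤ) % (2 * (M + 1 : ℕ) + 1) = 2 * (M + 1 : ℕ) by
            rw [← Int.add_emod_right, Int.emod_eq_of_lt (by push_cast; omega) (by omega)]; ring, abs_le] at h3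
          push_cast at h3
          omega
        · rw [e, Int.emod_self, abs_le] at h3
          push_cast at h3
          omega
      have e2 : x ((fun i => v i - ((M + 1 : ℕ) : ℤ)) + u) = 0 := by
        by_contra hx0
        have h3 := hM _ hx0 i
        simp only [Pi.add_apply] at h3 hcase
        rw [abs_le] at h3
        push_cast at h3 hcase
        omega
      rw [e1, e2]
  constructor
  · have h1 : (Fintype.piFinset fun _ : Fin d => Finset.Icc (-((M + 1 : ℕ) : ℤ)) ((M + 1 : ℕ) : ℤ) :
        Set (Fin d → ℤ)).Finite := Finset.finite_toSet _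
    refine h1.subset fun w hw => ?_
    rw [Finset.mem_coe, Fintype.mem_piFinset]
    intro i
    rw [Finset.mem_Icc, ← abs_le]
    exact hFx w hw i
  · rw [finsum_box (M + 1) (fun v => (globalMap f x v : ℕ)) (fun w hw => hFx w (fun h0 => hw (by simp [h0]))),
      finsum_box (M + 1) (fun v => (x v : ℕ)) (fun w hw i => by
        have := hM w (fun h0 => hw (by simp [h0])) i
        push_cast
        omega)]
    have hs1 : ∑ v ∈ box (fun _ : Fin d => 2 * (M + 1) + 1), (globalMap f y v : ℕ) =
        ∑ v ∈ box (fun _ : Fin d => 2 * (M + 1) + 1), (globalMap f x (fun i => v i - ((M + 1 : ℕ) : ℤ)) : ℕ) :=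
      Finset.sum_congr rfl fun v hv => by rw [hboxF v hv]
    have hs2 : ∑ v ∈ box (fun _ : Fin d => 2 * (M + 1) + 1), (y v : ℕ) =
        ∑ v ∈ box (fun _ : Fin d => 2 * (M + 1) + 1), (x (fun i => v i - ((M + 1 : ℕ) : ℤ)) : ℕ) :=
      Finset.sum_congr rfl fun v hv => by rw [hbox v hv]
    rw [hs1, hs2] at hper
    exact hper

theorem good {d : ℕ} {f : (VN d → Fin 3) → Fin 3} (hf : ConservesFinite f) (hinj : Injective (globalMap f)) :
    Good (VN d) (globalMap f) where
  zero_mem := Or.inl rfl
  neg_mem := fun _ hu => VN_neg hu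
  fin := VN_finite d
  sp := VN_sp
  two := by
    intro u hu
    ext i
    have := congrFun hu i
    simp only [Pi.add_apply, Pi.zero_apply] at this ⊢
    omega
  loc := by
    intro x y v hxy
    unfold globalMap
    congr 1
    ext u
    rw [hxy u.1 u.2]
  shift := by
    intro x h v
    unfold globalMap
    congr 1
    ext u
    rw [add_right_comm]
  nc := hf
  inj := hinj

end Pool.Agent.Q21.NC
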