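import Pool.Agent.Q21.NC.Main

/-!
The state `2` moves as a whole.
-/

namespace Pool.Agent.Q21.NC

open Function Set

variable {G : Type*} [AddCommGroup G] [DecidableEq G] {N : Set G} {F : (G → Fin 3) → (G → Fin 3)}

/-- indicator of the cell `p` -/
def I (p v : G) : ℤ := if v = p then 1 else 0

theorem I_self (p : G) : I p p = 1 := if_pos rfl
theorem I_ne {p v : G} (hv : v ≠ p) : I p v = 0 := if_neg hv
theorem I_nonneg (p v : G) : 0 ≤ I p v := by unfold I; split_ifs <;> norm_num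

namespace Good

theorem D_adj (h : Good N F) {e : G} (he : e ∈ N) (he0 : e ≠ 0) (a : G) (s t : Fin 3) (v : G) :
    D F a s (a + e) t v = D F 0 s e t 0 * (I a v - I (a + e) v) := by
  have hab : a ≠ a + e := fun hc => he0 (by simpa using hc.symm)
  have hz : D F a s (a + e) t a = D F 0 s e t 0 := by
    have := h.D_shift 0 e s t a 0
    rwa [zero_add, add_comm e a] at this
  by_cases e1 : v = a
  · rw [e1, hz, I_self, I_ne hab]; ring
  · by_cases e2 : v = a + e
    · have h1 := h.D_anti hab s t a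
      rw [show a + (a + e) - a = a + e by abel, hz] at h1
      rw [e2, h1, I_self, I_ne hab.symm]; ring
    · rw [I_ne e1, I_ne e2, sub_zero, mul_zero]
      by_contra hc
      have h1 : a - a ∈ N := by rw [sub_self]; exact h.zero_mem
      have h2 : a + e - a ∈ N := by rw [add_sub_cancel_left]; exact he
      rcases h.view hab h1 h2 (h.D_see hc).1 (h.D_see hc).2 with h3 | h3
      · exact e1 h3
      · exact e2 (h3.trans (by abel))

theorem D_adj0 (h : Good N F) {e : G} (he : e ∈ N) (he0 : e ≠ 0) (s t : Fin 3) (v : G) :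
    D F 0 s e t v = D F 0 s e t 0 * (I 0 v - I e v) := by
  have := h.D_adj he he0 0 s t v
  rwa [zero_add] at this

theorem D_two (h : Good N F) {e : G} (he : e ∈ N) (he0 : e ≠ 0) (s t : Fin 3) (v : G) :
    D F 0 s (e + e) t v = 0 := by
  have := h.D_single he he0 0 s t v
  rwa [zero_add] at this

theorem Z_pr_shift (h : Good N F) {e : G} (s t : Fin 3) (k v : G) :
    Z F (pr k s (e + k) t) v = Z F (pr 0 s e t) (v - k) := by
  have := h.Z_pr 0 s e t k (v - k)
  rwa [zero_add, sub_add_cancel] at this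

omit [DecidableEq G] in
theorem I_shift [DecidableEq G] (p k v : G) : I p (v - k) = I (p + k) v := by
  unfold I
  congr 1
  simp only [eq_iff_iff]
  exact sub_eq_iff_eq_add

theorem B_one (h : Good N F) {e : G} (he : e ∈ N) (he0 : e ≠ 0)
    (h1 : ∀ a v, Z F (sg a 1) v = I a v) (h2 : ∀ a v, Z F (sg a 2) v = I a v + I (a + e) v)
    (hp : ∀ v, Z F (pr 0 1 e 1) v = 2 * I 0 v) : False := by
  have hee : e + e ≠ 0 := fun hc => he0 (h.two e hc)
  have hee' : e + e ≠ e := fun hc => he0 (by simpa using hc)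
  have hp' : ∀ v, Z F (pr e 1 (e + e) 1) v = 2 * I e v := by
    intro v; rw [h.Z_pr_shift, hp, I_shift, zero_add]
  have z1 : ∀ v, Z F (pr 0 2 e 1) v = I 0 v + I e v + I e v + D F 0 2 e 1 0 * (I 0 v - I e v) := by
    intro v
    rw [Z_pr_eq, h1, h2, h.D_adj0 he he0, zero_add]
  have z2 : ∀ v, Z F (pr 0 2 (e + e) 1) v = I 0 v + I e v + I (e + e) v := by
    intro v
    rw [Z_pr_eq, h1, h2, h.D_two he he0, zero_add]; ring
  have z3 : ∀ v, Z F (pr 0 1 (e + e) 1) v = I 0 v + I (e + e) v := by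
    intro v
    rw [Z_pr_eq, h1, h1, h.D_two he he0]; ring
  have z4 : ∀ v, Z F (tr 0 2 e 1 (e + e) 1) v = Z F (pr 0 2 e 1) v + I e v := by
    intro v
    rw [h.T3 he0.symm hee.symm hee'.symm, z2, hp', h1, h1, h2, zero_add]; ring
  have z5 : ∀ v, Z F (tr 0 1 e 1 (e + e) 1) v = 2 * I 0 v + I e v := by
    intro v
    rw [h.T3 he0.symm hee.symm hee'.symm, hp, z3, hp', h1, h1, h1]; ring
  have b1 := Z_le F (tr 0 2 e 1 (e + e) 1) e
  rw [z4, z1, I_self, I_ne he0] at b1
  have b2 := Z_le F (pr 0 2 e 1) 0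
  rw [z1, I_self, I_ne he0.symm] at b2
  have hg : D F 0 2 e 1 0 = 1 := by linarith
  have hx : pr 0 2 e 1 = tr 0 1 e 1 (e + e) 1 := by
    apply h.injZ
    intro v
    rw [z1, z5, hg]; ring
  have := congrFun hx 0
  simp [pr, tr] at this

theorem B_two (h : Good N F) {f : G} (hf : f ∈ N) (hf0 : f ≠ 0)
    (h1 : ∀ a v, Z F (sg a 1) v = I a v) (h2 : ∀ a v, Z F (sg a 2) v = I a v + I (a - f) v)
    (hp : ∀ v, Z F (pr 0 1 f 1) v = 2 * I 0 v) : False := by
  have hff : f + f ≠ 0 := fun hc => hf0 (h.two f hc)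
  have hff' : f + f ≠ f := fun hc => hf0 (by simpa using hc)
  have hfn : f ≠ -f := fun hc => hff (by nth_rw 1 [hc]; simp)
  have hn0 : (-f : G) ≠ 0 := neg_ne_zero.2 hf0
  have hp' : ∀ v, Z F (pr f 1 (f + f) 1) v = 2 * I f v := by
    intro v; rw [h.Z_pr_shift, hp, I_shift, zero_add]
  have z1 : ∀ v, Z F (pr 0 1 f 2) v = I 0 v + I 0 v + I f v + D F 0 1 f 2 0 * (I 0 v - I f v) := by
    intro v
    rw [Z_pr_eq, h1, h2, h.D_adj0 hf hf0, sub_self]; ring
  have z3 : ∀ v, Z F (pr 0 1 (f + f) 1) v = I 0 v + I (f + f) v := by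
    intro v
    rw [Z_pr_eq, h1, h1, h.D_two hf hf0]; ring
  have z5 : ∀ v, Z F (tr 0 1 f 1 (f + f) 1) v = 2 * I 0 v + I f v := by
    intro v
    rw [h.T3 hf0.symm hff.symm hff'.symm, hp, z3, hp', h1, h1, h1]; ring
  have b1 := Z_le F (pr 0 1 f 2) 0
  rw [z1, I_self, I_ne hf0.symm] at b1
  have b2 := Z_le F (pr 0 1 f 2) f
  rw [z1, I_self, I_ne hf0] at b2
  have hg : D F 0 1 f 2 0 = -1 := by
    by_contra hne
    have h0 : D F 0 1 f 2 0 = 0 := by omega
    have hx : pr 0 1 f 2 = tr 0 1 f 1 (f + f) 1 := by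
      apply h.injZ
      intro v
      rw [z1, z5, h0]; ring
    have := congrFun hx f
    simp [pr, tr, hf0] at this
  have z6 : ∀ v, Z F (pr 0 1 f 2) v = I 0 v + 2 * I f v := by
    intro v; rw [z1, hg]; ring
  have z7 : ∀ v, Z F (pr 0 2 f 1) v = I 0 v + I (-f) v + I f v + D F 0 2 f 1 0 * (I 0 v - I f v) := by
    intro v
    rw [Z_pr_eq, h1, h2, h.D_adj0 hf hf0, zero_sub]
  have z8 : ∀ v, Z F (pr (-f) 1 f 2) v = I (-f) v + I f v + I 0 v := by
    intro v
    have e1 := h.D_single hf hf0 (-f) 1 2 v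
    rw [neg_add_cancel, zero_add] at e1
    rw [Z_pr_eq, h1, h2, e1, sub_self]; ring
  have z9 : ∀ v, Z F (pr (-f) 1 0 2) v = I (-f) v + 2 * I 0 v := by
    intro v
    have e1 := h.Z_pr_shift (e := f) 1 2 (-f) v
    rw [add_neg_cancel] at e1
    rw [e1, z6, I_shift, I_shift, zero_add, add_neg_cancel]
  have c1 := Z_nonneg F (pr 0 2 f 1) 0
  rw [z7, I_self, I_ne hf0.symm, I_ne hn0.symm] at c1
  have c2 := Z_nonneg F (pr 0 2 f 1) f
  rw [z7, I_self, I_ne hf0, I_ne hfn] at c2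
  have hg2 : D F 0 2 f 1 0 = -1 := by
    rcases (by omega : D F 0 2 f 1 0 = -1 ∨ D F 0 2 f 1 0 = 0 ∨ D F 0 2 f 1 0 = 1) with e | e | e
    · exact e
    · exfalso
      have hx : pr 0 2 f 1 = pr (-f) 1 f 2 := by
        apply h.injZ
        intro v
        rw [z7, z8, e]; ring
      have := congrFun hx f
      simp [pr, hf0, hfn] at this
    · exfalso
      have hx : pr 0 2 f 1 = pr (-f) 1 0 2 := by
        apply h.injZ
        intro v
        rw [z7, z9, e]; ring
      have := congrFun hx f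
      simp [pr, hf0, hfn] at this
  have z10 : ∀ v, Z F (pr 0 2 (f + f) 1) v = I 0 v + I (-f) v + I (f + f) v := by
    intro v
    rw [Z_pr_eq, h1, h2, h.D_two hf hf0, zero_sub]; ring
  have c3 := Z_le F (tr 0 2 f 1 (f + f) 1) f
  rw [h.T3 hf0.symm hff.symm hff'.symm, z7, z10, hp', h1, h1, h2, hg2, zero_sub, I_self, I_ne hf0, I_ne hfn,
    I_ne hff'.symm] at c3
  omega

theorem whole_aux (h : Good N F) {q : G} (hq : q ∈ N) (hq0 : q ≠ 0)
    (h1 : ∀ a v, Z F (sg a 1) v = I a v) (h2 : ∀ a v, Z F (sg a 2) v = I a v + I (a - q) v)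
    {w : G} (hw : D F 0 1 (-q) 1 w ≠ 0) : False := by
  have hnN := h.neg_mem q hq
  have hn0 : (-q : G) ≠ 0 := neg_ne_zero.2 hq0
  rw [h.D_adj0 hnN hn0] at hw
  have hg : D F 0 1 (-q) 1 0 ≠ 0 := left_ne_zero_of_mul hw
  have z1 : ∀ v, Z F (pr 0 1 (-q) 1) v = I 0 v + I (-q) v + D F 0 1 (-q) 1 0 * (I 0 v - I (-q) v) := by
    intro v
    rw [Z_pr_eq, h1, h1, h.D_adj0 hnN hn0]
  have b1 := Z_nonneg F (pr 0 1 (-q) 1) 0
  have b2 := Z_le F (pr 0 1 (-q) 1) 0
  rw [z1, I_self, I_ne hn0.symm] at b1 b2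
  rcases (by omega : D F 0 1 (-q) 1 0 = 1 ∨ D F 0 1 (-q) 1 0 = -1) with e | e
  · refine h.B_one hnN hn0 h1 (fun a v => ?_) (fun v => ?_)
    · rw [h2, sub_eq_add_neg]
    · rw [z1, e]; ring
  · refine h.B_two hq hq0 h1 h2 (fun v => ?_)
    have e2 := h.Z_pr 0 1 (-q) 1 q (v - q)
    rw [neg_add_cancel, zero_add, sub_add_cancel, pr_swap hq0] at e2
    rw [e2, z1, e, I_shift, I_shift, neg_add_cancel, zero_add]; ring

/-- the state `2` moves as a whole -/
theorem exists_whole (h : Good N F) {u : G} (hu : u ∈ N) (h1 : ∀ a v, Z F (sg a 1) v = I (a - u) v) :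
    ∃ q ∈ N, ∀ a v, Z F (sg a 2) v = 2 * I (a - q) v := by
  obtain ⟨p, hpN, q, hqN, h2⟩ := h.exists_u2
  have h2' : ∀ a v, Z F (sg a 2) v = I (a - p) v + I (a - q) v := h2
  by_cases hpq : p = q
  · exact ⟨q, hqN, fun a v => by rw [h2', hpq]; ring⟩
  exfalso
  -- the images of the two halves
  have key : ∃ w, D F (-p + u) 1 (-q + u) 1 w ≠ 0 := by
    by_contra hc
    push Not at hc
    have hx : pr (-p + u) 1 (-q + u) 1 = sg 0 2 := by
      apply h.injZ
      intro v
      rw [Z_pr_eq, h1, h1, hc, h2', add_sub_cancel_right, add_sub_cancel_right, zero_sub, zero_sub]; ring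
    have := congrFun hx (-p + u)
    simp only [pr, if_true, sg] at this
    split_ifs at this <;> simp at this
  obtain ⟨w, hw⟩ := key
  have hne : -p + u ≠ -q + u := fun hc => hpq (by simpa using hc)
  have hu0 : u = 0 := by
    by_contra hu0
    exact hw (h.D11_of_ne hu hu0 h1 hne w)
  subst hu0
  simp only [sub_zero, add_zero] at h1 hw hne
  have h1' : ∀ a v, Z F (sg a (1 : Fin 3)) v = if v = a - 0 then (((1 : Fin 3) : ℕ) : ℤ) else 0 := by
    intro a v; rw [h1, sub_zero]; norm_num [I]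
  obtain ⟨w', hw'⟩ := h.exists_neg hne hw
  have hs := h.D_see hw'.ne
  have hr : p - q ∈ N := by
    rcases h.neg_spot h1' h1' hne hw' with ⟨e, -⟩ | ⟨e, -⟩
    · rw [e, show -q - (-p - 0) = p - q by abel] at hs
      exact hs.2
    · rw [e, show -p - (-q - 0) = -(p - q) by abel] at hs
      have := h.neg_mem _ hs.1
      rwa [neg_neg] at this
  rcases h.sp _ hr _ hqN _ hpN _ h.zero_mem (by abel) with e | e | e
  · have hq0 : q = 0 := sub_eq_self.1 e
    subst hq0
    rw [neg_zero] at hw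
    have hp0 : p ≠ 0 := hpq
    rw [D_swap (neg_ne_zero.2 hp0)] at hw
    refine h.whole_aux hpN hp0 h1 (fun a v => ?_) hw
    rw [h2', sub_zero]; ring
  · exact hpq (sub_eq_zero.1 e)
  · have hp0 : p = 0 := by
      rw [neg_sub] at e
      exact sub_eq_self.1 e.symm
    subst hp0
    rw [neg_zero] at hw
    have hq0 : q ≠ 0 := fun hc => hpq hc.symm
    refine h.whole_aux hqN hq0 h1 (fun a v => ?_) hw
    rw [h2', sub_zero]

end Good

end Pool.Agent.Q21.NC
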