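import Pool.Agent.Q21.NC.StepB

/-!
The states `1` and `2` move by the same vector.
-/

namespace Pool.Agent.Q21.NC

open Function Set

variable {G : Type*} [AddCommGroup G] [DecidableEq G] {N : Set G} {F : (G → Fin 3) → (G → Fin 3)}

namespace Good

theorem D_form (h : Good N F) {a b w : G} {s t : Fin 3} (hab : a ≠ b) (hne : D F a s b t w ≠ 0) (v : G) :
    D F a s b t v = D F a s b t w * (I w v - I (a + b - w) v) := by
  have h1 := h.D_anti hab s t w
  have h2 : a + b - w ≠ w := by
    intro hc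
    rw [hc] at h1
    exact hne (by linarith)
  by_cases e1 : v = w
  · rw [e1, I_self, I_ne h2.symm]; ring
  · by_cases e2 : v = a + b - w
    · rw [e2, h1, I_self, I_ne h2]; ring
    · rw [I_ne e1, I_ne e2, sub_zero, mul_zero]
      by_contra hc
      rcases h.D_only hab hne hc with h3 | h3
      · exact e1 h3
      · exact e2 h3

theorem D11 (h : Good N F) {u q : G} (hu : u ∈ N)
    (h1 : ∀ a v, Z F (sg a 1) v = I (a - u) v) (h2 : ∀ a v, Z F (sg a 2) v = 2 * I (a - q) v)
    {a b : G} (hab : a ≠ b) (v : G) : D F a 1 b 1 v = 0 := by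
  by_cases hu0 : u = 0
  swap
  · exact h.D11_of_ne hu hu0 h1 hab v
  subst hu0
  simp only [sub_zero] at h1
  have h1' : ∀ a v, Z F (sg a (1 : Fin 3)) v = if v = a - 0 then (((1 : Fin 3) : ℕ) : ℤ) else 0 := by
    intro a v; rw [h1, sub_zero]; norm_num [I]
  have main : ∀ a b : G, a ≠ b → D F a 1 b 1 b < 0 → False := by
    intro a b hab hlt
    have e1 := Z_nonneg F (pr a 1 b 1) b
    rw [Z_pr_eq, h1, h1, I_self, I_ne hab.symm] at e1
    have e2 : D F a 1 b 1 b = -1 := by omega
    have hx : pr a 1 b 1 = sg (a + q) 2 := by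
      apply h.injZ
      intro v
      rw [Z_pr_eq, h1, h1, h2, h.D_form hab hlt.ne v, e2, add_sub_cancel_right, add_sub_cancel_right]; ring
    have := congrFun hx b
    simp only [pr, if_neg hab.symm, if_true, sg] at this
    split_ifs at this <;> simp at this
  by_contra hv
  obtain ⟨w, hw⟩ := h.exists_neg hab hv
  rcases h.neg_spot h1' h1' hab hw with ⟨e, -⟩ | ⟨e, -⟩
  · rw [sub_zero] at e
    rw [e, D_swap hab] at hw
    exact main b a hab.symm hw
  · rw [sub_zero] at e
    rw [e] at hw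
    exact main a b hab hw

theorem C_three (h : Good N F) {e : G} (he : e ∈ N) (he0 : e ≠ 0)
    (h1 : ∀ a v, Z F (sg a 1) v = I (a - e) v) (h2 : ∀ a v, Z F (sg a 2) v = 2 * I (a - 0) v)
    (hp : ∀ v, Z F (pr 0 2 e 1) v = I 0 v + 2 * I e v) : False := by
  have hee : e + e ≠ 0 := fun hc => he0 (h.two e hc)
  have hee' : e + e ≠ e := fun hc => he0 (by simpa using hc)
  have c3 := Z_le F (tr 0 2 e 1 (e + e) 1) e
  rw [h.T3 he0.symm hee.symm hee'.symm, hp, Z_pr_eq 0 2 (e + e) 1, Z_pr_eq e 1 (e + e) 1, h1, h1, h2,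
    h.D_two he he0, h.D11 he h1 h2 hee'.symm, sub_zero, sub_self, add_sub_cancel_right, I_self, I_ne he0] at c3
  omega

theorem C_two (h : Good N F) {e : G} (he : e ∈ N) (he0 : e ≠ 0)
    (h1 : ∀ a v, Z F (sg a 1) v = I (a - 0) v) (h2 : ∀ a v, Z F (sg a 2) v = 2 * I (a - e) v)
    (hp : ∀ v, Z F (pr 0 1 e 2) v = 2 * I 0 v + I e v) : False := by
  have hee : e + e ≠ 0 := fun hc => he0 (h.two e hc)
  have hee' : e + e ≠ e := fun hc => he0 (by simpa using hc)
  have hen : e ≠ -e := fun hc => hee (by nth_rw 1 [hc]; simp)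
  have hn0 : (-e : G) ≠ 0 := neg_ne_zero.2 he0
  have z1 : ∀ v, Z F (pr 0 2 e 1) v = 2 * I (-e) v + I e v + D F 0 2 e 1 0 * (I 0 v - I e v) := by
    intro v
    rw [Z_pr_eq, h1, h2, h.D_adj0 he he0, zero_sub, sub_zero]
  have z2 : ∀ v, Z F (pr (-e) 1 0 2) v = 2 * I (-e) v + I 0 v := by
    intro v
    have e1 := h.Z_pr_shift (e := e) 1 2 (-e) v
    rw [add_neg_cancel] at e1
    rw [e1, hp, I_shift, I_shift, zero_add, add_neg_cancel]
  have b1 := Z_nonneg F (pr 0 2 e 1) 0
  rw [z1, I_self, I_ne he0.symm, I_ne hn0.symm] at b1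
  have b2 := Z_nonneg F (pr 0 2 e 1) e
  rw [z1, I_self, I_ne he0, I_ne hen] at b2
  have hs : D F 0 2 e 1 0 = 0 := by
    by_contra hc
    have h0 : D F 0 2 e 1 0 = 1 := by omega
    have hx : pr 0 2 e 1 = pr (-e) 1 0 2 := by
      apply h.injZ
      intro v
      rw [z1, z2, h0]; ring
    have := congrFun hx e
    simp [pr, he0, hen] at this
  have z3 : ∀ v, Z F (pr 0 2 e 2) v = 2 * I (-e) v + 2 * I 0 v + D F 0 2 e 2 0 * (I 0 v - I e v) := by
    intro v
    rw [Z_pr_eq, h2, h2, h.D_adj0 he he0, zero_sub, sub_self]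
  have z4 : ∀ v, Z F (pr 0 2 (e + e) 2) v = 2 * I (-e) v + 2 * I e v := by
    intro v
    rw [Z_pr_eq, h2, h2, h.D_two he he0, zero_sub, add_sub_cancel_right]; ring
  have b3 := Z_le F (pr 0 2 e 2) 0
  rw [z3, I_self, I_ne he0.symm, I_ne hn0.symm] at b3
  have b4 := Z_le F (pr 0 2 e 2) e
  rw [z3, I_self, I_ne he0, I_ne hen] at b4
  have hr : D F 0 2 e 2 0 ≠ -2 := by
    intro h0
    have hx : pr 0 2 e 2 = pr 0 2 (e + e) 2 := by
      apply h.injZ
      intro v
      rw [z3, z4, h0]; ring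
    have := congrFun hx e
    simp [pr, he0] at this
  have z5 : ∀ v, Z F (pr e 2 (e + e) 2) v = 2 * I 0 v + 2 * I e v + D F 0 2 e 2 0 * (I e v - I (e + e) v) := by
    intro v
    rw [h.Z_pr_shift, z3, I_shift, I_shift, I_shift, zero_add, neg_add_cancel]
  have z6 : ∀ v, Z F (pr 0 1 (e + e) 2) v = I 0 v + 2 * I e v := by
    intro v
    rw [Z_pr_eq, h1, h2, h.D_two he he0, sub_zero, add_sub_cancel_right]; ring
  have z7 : ∀ v, Z F (pr 0 1 (e + e) 1) v = I 0 v + I (e + e) v := by
    intro v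
    rw [Z_pr_eq, h1, h1, h.D_two he he0, sub_zero, sub_zero]; ring
  have b5 := Z_le F (tr 0 1 e 2 (e + e) 2) e
  rw [h.T3 he0.symm hee.symm hee'.symm, hp, z5, z6, h1, h2, h2, sub_zero, sub_self, add_sub_cancel_right, I_self,
    I_ne he0, I_ne hee'.symm] at b5
  have hr1 : D F 0 2 e 2 0 = -1 := by omega
  have z8 : ∀ v, Z F (pr e 2 (e + e) 1) v = 2 * I 0 v + I (e + e) v := by
    intro v
    rw [h.Z_pr_shift, z1, hs, I_shift, I_shift, I_shift, neg_add_cancel]; ring
  have z9 : ∀ v, Z F (tr 0 1 e 2 (e + e) 1) v = 2 * I 0 v + I e v + I (e + e) v := by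
    intro v
    rw [h.T3 he0.symm hee.symm hee'.symm, hp, z7, z8, h1, h1, h2, sub_zero, sub_zero, sub_self]; ring
  have hx : pr e 2 (e + e) 2 = tr 0 1 e 2 (e + e) 1 := by
    apply h.injZ
    intro v
    rw [z5, z9, hr1]; ring
  have := congrFun hx 0
  simp [pr, tr, he0.symm, hee.symm] at this

/-- the two states move by the same vector -/
theorem same_vec (h : Good N F) {u q : G} (hu : u ∈ N) (hq : q ∈ N)
    (h1 : ∀ a v, Z F (sg a 1) v = I (a - u) v) (h2 : ∀ a v, Z F (sg a 2) v = 2 * I (a - q) v) : u = q := by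
  by_contra huq
  have b1 := Z_le F (pr u 1 q 2) 0
  have b2 := Z_nonneg F (pr u 1 q 2) 0
  rw [Z_pr_eq, h1, h2, sub_self, sub_self, I_self] at b1 b2
  have hne : D F u 1 q 2 0 ≠ 0 := by intro hc; rw [hc] at b1; norm_num at b1
  have hs0 : u + q ≠ 0 := by
    intro hc
    have := h.D_anti huq 1 2 0
    rw [hc, sub_zero] at this
    exact hne (by linarith)
  have z1 : ∀ v, Z F (pr u 1 q 2) v = 3 * I 0 v + D F u 1 q 2 0 * (I 0 v - I (u + q) v) := by
    intro v
    rw [Z_pr_eq, h1, h2, sub_self, sub_self, h.D_form huq hne v, sub_zero]; ring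
  have b3 := Z_le F (pr u 1 q 2) (u + q)
  rw [z1, I_self, I_ne hs0] at b3
  rcases (by omega : D F u 1 q 2 0 = -1 ∨ D F u 1 q 2 0 = -2) with hd | hd
  · have hu0 : u = 0 := by
      by_contra hu0
      have hx : pr u 1 q 2 = pr q 2 (q + u + u) 1 := by
        apply h.injZ
        intro v
        rw [z1, hd, Z_pr_eq, h1, h2, h.D_single hu hu0, sub_self, add_sub_cancel_right, add_comm u q]; ring
      have := congrFun hx u
      have hn : u ≠ q + u + u := by
        intro hc
        apply hs0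
        have h3 : q + u + u - u = 0 := by rw [← hc, sub_self]
        rw [add_sub_cancel_right] at h3
        rw [add_comm]; exact h3
      simp only [pr, if_true, if_neg huq, if_neg hn] at this
      simp at this
    subst hu0
    refine h.C_two hq (Ne.symm huq) h1 h2 (fun v => ?_)
    rw [z1, hd, zero_add]; ring
  · have hq0 : q = 0 := by
      by_contra hq0
      have hx : pr u 1 q 2 = pr u 1 (u + q + q) 2 := by
        apply h.injZ
        intro v
        rw [z1, hd, Z_pr_eq, h1, h2, h.D_single hq hq0, sub_self, add_sub_cancel_right]; ring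
      have := congrFun hx q
      have hn : q ≠ u + q + q := by
        intro hc
        apply hs0
        have h3 : u + q + q - q = 0 := by rw [← hc, sub_self]
        rwa [add_sub_cancel_right] at h3
      simp only [pr, if_true, if_neg (Ne.symm huq), if_neg hn] at this
      simp at this
    subst hq0
    refine h.C_three hu huq h1 h2 (fun v => ?_)
    rw [pr_swap (Ne.symm huq), z1, hd, add_zero]; ring

end Good

end Pool.Agent.Q21.NC
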