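import Pool.Agent.Q21.NC.StepC

/-!
No interaction, and the conclusion.
-/

namespace Pool.Agent.Q21.NC

open Function Set

variable {G : Type*} [AddCommGroup G] [DecidableEq G] {N : Set G} {F : (G → Fin 3) → (G → Fin 3)}

namespace Good

/-- `D` vanishes if it is nowhere negative at `b - u` and `a - u` -/
theorem D_zero_of (h : Good N F) {u : G}
    (hs : ∀ (s : Fin 3) a v, Z F (sg a s) v = if v = a - u then ((s : ℕ) : ℤ) else 0) {s t : Fin 3}
    (k1 : ∀ a b : G, a ≠ b → D F a s b t (b - u) < 0 → -((t : ℕ) : ℤ) ≤ D F a s b t (b - u) → False)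
    (k2 : ∀ a b : G, a ≠ b → D F a t b s (b - u) < 0 → -((s : ℕ) : ℤ) ≤ D F a t b s (b - u) → False)
    {a b : G} (hab : a ≠ b) (v : G) : D F a s b t v = 0 := by
  by_contra hv
  obtain ⟨w, hw⟩ := h.exists_neg hab hv
  rcases h.neg_spot (hs s) (hs t) hab hw with ⟨e1, e2⟩ | ⟨e1, e2⟩
  · rw [e1] at hw e2
    rw [D_swap hab] at hw e2
    exact k2 b a hab.symm hw e2
  · rw [e1] at hw e2
    exact k1 a b hab hw e2

/-- moving, one unit goes over -/
theorem no_one (h : Good N F) {u : G} (hu : u ∈ N) (hu0 : u ≠ 0)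
    (hs : ∀ (s : Fin 3) a v, Z F (sg a s) v = if v = a - u then ((s : ℕ) : ℤ) else 0)
    (h11 : ∀ a b : G, a ≠ b → ∀ v, D F a 1 b 1 v = 0) {s : Fin 3}
    (hs1 : ∀ a b : G, a ≠ b → ∀ v, D F a s b 1 v = 0) {a b : G} (hab : a ≠ b)
    (hd : D F a s b 2 (b - u) = -1) : False := by
  have hne : D F a s b 2 (b - u) ≠ 0 := by rw [hd]; norm_num
  have hb : b ≠ a + u + u := by
    intro hc
    rw [hc] at hne
    exact hne (h.D_single hu hu0 a s 2 _)
  have ha : a ≠ a + u + u := by
    intro hc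
    apply hu0
    apply h.two
    have h3 : a + (u + u) = a + 0 := by rw [← add_assoc, ← hc, add_zero]
    exact add_left_cancel h3
  have hs' : ∀ (s : Fin 3) a v, Z F (sg a s) v = ((s : ℕ) : ℤ) * I (a - u) v := by
    intro s a v; rw [hs]; unfold I; split_ifs <;> simp
  have hx : pr a s b 2 = tr a s b 1 (a + u + u) 1 := by
    apply h.injZ
    intro v
    rw [h.T3 hab ha hb, Z_pr_eq, Z_pr_eq, Z_pr_eq, Z_pr_eq, h.D_form hab hne v, hd, hs1 a b hab, hs1 a _ ha,
      h11 b _ hb, hs', hs', hs', hs', add_sub_cancel_right, show a + b - (b - u) = a + u by abel]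
    norm_num
    ring
  have := congrFun hx b
  simp only [pr, tr, if_neg hab.symm, if_true] at this
  simp at this

theorem D_all_ne (h : Good N F) {u : G} (hu : u ∈ N) (hu0 : u ≠ 0)
    (hs : ∀ (s : Fin 3) a v, Z F (sg a s) v = if v = a - u then ((s : ℕ) : ℤ) else 0)
    (h11 : ∀ a b : G, a ≠ b → ∀ v, D F a 1 b 1 v = 0) :
    (∀ a b : G, a ≠ b → ∀ v, D F a 1 b 2 v = 0) ∧ (∀ a b : G, a ≠ b → ∀ v, D F a 2 b 2 v = 0) := by
  have k12 : ∀ a b : G, a ≠ b → D F a 1 b 2 (b - u) < 0 → -(((2 : Fin 3) : ℕ) : ℤ) ≤ D F a 1 b 2 (b - u) →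
      False := by
    intro a b hab hlt hle
    have hle' : -2 ≤ D F a 1 b 2 (b - u) := by simpa using hle
    rcases (by omega : D F a 1 b 2 (b - u) = -2 ∨ D F a 1 b 2 (b - u) = -1) with e | e
    · exact h.no_full hu hu0 (by decide) (hs 1) (hs 2) hab (by rw [e]; rfl)
    · exact h.no_one hu hu0 hs h11 h11 hab e
  have k21 : ∀ a b : G, a ≠ b → D F a 2 b 1 (b - u) < 0 → -(((1 : Fin 3) : ℕ) : ℤ) ≤ D F a 2 b 1 (b - u) →
      False := by
    intro a b hab hlt hle
    have hle' : -1 ≤ D F a 2 b 1 (b - u) := by simpa using hle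
    exact h.no_full hu hu0 (by decide) (hs 2) (hs 1) hab (by simp; omega)
  have h12 : ∀ a b : G, a ≠ b → ∀ v, D F a 1 b 2 v = 0 := fun a b hab v => h.D_zero_of hs k12 k21 hab v
  have h21 : ∀ a b : G, a ≠ b → ∀ v, D F a 2 b 1 v = 0 := fun a b hab v => by
    rw [D_swap hab]; exact h12 b a hab.symm v
  have k22 : ∀ a b : G, a ≠ b → D F a 2 b 2 (b - u) < 0 → -(((2 : Fin 3) : ℕ) : ℤ) ≤ D F a 2 b 2 (b - u) →
      False := by
    intro a b hab hlt hle
    have hle' : -2 ≤ D F a 2 b 2 (b - u) := by simpa using hle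
    rcases (by omega : D F a 2 b 2 (b - u) = -2 ∨ D F a 2 b 2 (b - u) = -1) with e | e
    · exact h.no_full hu hu0 (by decide) (hs 2) (hs 2) hab (by rw [e]; rfl)
    · exact h.no_one hu hu0 hs h11 h21 hab e
  exact ⟨h12, fun a b hab v => h.D_zero_of hs k22 k22 hab v⟩

theorem D_all_zero (h : Good N F)
    (hs : ∀ (s : Fin 3) a v, Z F (sg a s) v = if v = a - 0 then ((s : ℕ) : ℤ) else 0)
    (h11 : ∀ a b : G, a ≠ b → ∀ v, D F a 1 b 1 v = 0) :
    (∀ a b : G, a ≠ b → ∀ v, D F a 1 b 2 v = 0) ∧ (∀ a b : G, a ≠ b → ∀ v, D F a 2 b 2 v = 0) := by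
  have hs' : ∀ (s : Fin 3) a v, Z F (sg a s) v = ((s : ℕ) : ℤ) * I a v := by
    intro s a v; rw [hs, sub_zero]; unfold I; split_ifs <;> simp
  -- the receiving cell holds at most two
  have cap : ∀ (s t : Fin 3) (a b : G), a ≠ b → D F a s b t b < 0 → ((s : ℕ) : ℤ) - D F a s b t b ≤ 2 := by
    intro s t a b hab hlt
    have h1 := Z_le F (pr a s b t) a
    have h2 := h.D_anti hab s t b
    rw [add_sub_cancel_right] at h2
    rw [Z_pr_eq, hs', hs', I_self, I_ne hab, h2] at h1
    linarith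
  have k21 : ∀ a b : G, a ≠ b → D F a 2 b 1 (b - 0) < 0 → -(((1 : Fin 3) : ℕ) : ℤ) ≤ D F a 2 b 1 (b - 0) →
      False := by
    intro a b hab hlt _
    rw [sub_zero] at hlt
    have := cap 2 1 a b hab hlt
    simp at this
    omega
  have k22 : ∀ a b : G, a ≠ b → D F a 2 b 2 (b - 0) < 0 → -(((2 : Fin 3) : ℕ) : ℤ) ≤ D F a 2 b 2 (b - 0) →
      False := by
    intro a b hab hlt _
    rw [sub_zero] at hlt
    have := cap 2 2 a b hab hlt
    simp at this
    omega
  have k12 : ∀ a b : G, a ≠ b → D F a 1 b 2 (b - 0) < 0 → -(((2 : Fin 3) : ℕ) : ℤ) ≤ D F a 1 b 2 (b - 0) →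
      False := by
    intro a b hab hlt _
    rw [sub_zero] at hlt
    have hd : D F a 1 b 2 b = -1 := by
      have := cap 1 2 a b hab hlt
      simp at this
      omega
    have hne : D F a 1 b 2 b ≠ 0 := hlt.ne
    obtain ⟨e, hbe⟩ : ∃ e, b = a + e := ⟨b - a, by abel⟩
    subst hbe
    have he0 : e ≠ 0 := by
      intro hc
      exact hab (by rw [hc, add_zero])
    have he : e ∈ N := by
      have h1 := (h.D_see hne).1
      rw [show a - (a + e) = -e by abel] at h1
      have := h.neg_mem _ h1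
      rwa [neg_neg] at this
    have hg : D F 0 1 e 2 0 = 1 := by
      have := h.D_adj he he0 a 1 2 (a + e)
      rw [hd, I_self, I_ne hab.symm] at this
      linarith
    have z12 : ∀ a v, Z F (pr a 1 (a + e) 2) v = 2 * I a v + I (a + e) v := by
      intro a v
      rw [Z_pr_eq, hs', hs', h.D_adj he he0, hg]
      norm_num
      ring
    have hg2 : D F 0 2 e 1 0 = -1 := by
      have hc1 : D F 0 2 e 1 0 ≠ 0 := by
        intro h0
        have hx : pr a 2 (a + e) 1 = pr a 1 (a + e) 2 := by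
          apply h.injZ
          intro v
          rw [z12, Z_pr_eq, hs', hs', h.D_adj he he0, h0]
          norm_num
        have := congrFun hx a
        simp [pr] at this
      have h1 := Z_le F (pr a 2 (a + e) 1) a
      rw [Z_pr_eq, hs', hs', h.D_adj he he0, I_self, I_ne hab] at h1
      have h2 := Z_nonneg F (pr a 2 (a + e) 1) (a + e)
      have h3 := Z_le F (pr a 2 (a + e) 1) (a + e)
      rw [Z_pr_eq, hs', hs', h.D_adj he he0, I_self, I_ne hab.symm] at h2 h3
      norm_num at h1 h2 h3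
      omega
    have z21 : ∀ a v, Z F (pr a 2 (a + e) 1) v = I a v + 2 * I (a + e) v := by
      intro a v
      rw [Z_pr_eq, hs', hs', h.D_adj he he0, hg2]
      norm_num
      ring
    have hb1 : a ≠ a + e + e := by
      intro hc
      apply he0
      apply h.two
      have h3 : a + (e + e) = a + 0 := by rw [← add_assoc, ← hc, add_zero]
      exact add_left_cancel h3
    have hb2 : a + e ≠ a + e + e := by
      intro hc
      exact he0 (by simpa using hc.symm)
    have hx : tr a 1 (a + e) 2 (a + e + e) 1 = pr a 2 (a + e + e) 2 := by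
      apply h.injZ
      intro v
      rw [h.T3 hab hb1 hb2, z12, z21, Z_pr_eq, Z_pr_eq, h.D_single he he0, h.D_single he he0, hs', hs', hs', hs',
        hs']
      norm_num
      ring
    have := congrFun hx (a + e)
    simp [tr, pr, he0] at this
  exact ⟨fun a b hab v => h.D_zero_of hs k12 k21 hab v, fun a b hab v => h.D_zero_of hs k22 k22 hab v⟩

end Good

end Pool.Agent.Q21.NC
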